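import Pool.Agent.W34.GB.Stm

/-! GZ-A3: the supremum on the lines. -/

set_option autoImplicit false

namespace Pool.Agent.W108.GZ

open Filter Finset
open Pool.Agent.W34.GB

theorem num : ∀ α < 41, (∏ j ∈ Finset.range 8, ((j + 1) ^ 2 + (α + 1) ^ 2)) ^ 4 * 576 ^ 112 *
    27182818286 ^ 111 ≤ (10 ^ 111) ^ 10 * (∏ j ∈ Finset.range 48, ((j + 8) ^ 2 + α ^ 2)) ^ 3 := by
  decide +kernel

theorem log_step (A B a b c : ℕ) (hA : 0 < A) (hB : 0 < B) (ha : 0 < a) (hb : 0 < b) (hc : 0 < c)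
    (k1 k2 k3 : ℕ) (h : A ^ 4 * a ^ k1 * b ^ k2 ≤ c ^ k3 * B ^ 3) :
    4 * Real.log A + k1 * Real.log a + k2 * Real.log b ≤ k3 * Real.log c + 3 * Real.log B := by
  have h0 : ((A ^ 4 * a ^ k1 * b ^ k2 : ℕ) : ℝ) ≤ ((c ^ k3 * B ^ 3 : ℕ) : ℝ) := Nat.cast_le.2 h
  push_cast at h0
  have hA' : (0 : ℝ) < A := by exact_mod_cast hA
  have hB' : (0 : ℝ) < B := by exact_mod_cast hB
  have ha' : (0 : ℝ) < a := by exact_mod_cast ha
  have hb' : (0 : ℝ) < b := by exact_mod_cast hb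
  have hc' : (0 : ℝ) < c := by exact_mod_cast hc
  have h2 := Real.log_le_log (by positivity) h0
  rw [Real.log_mul (by positivity) (by positivity), Real.log_mul (by positivity) (by positivity),
    Real.log_mul (by positivity) (by positivity), Real.log_pow, Real.log_pow, Real.log_pow,
    Real.log_pow, Real.log_pow] at h2
  exact_mod_cast h2

theorem log_num : (1 : ℝ) + 10 * Real.log 10 ≤ Real.log 27182818286 := by
  rw [Real.le_log_iff_exp_le (by norm_num), Real.exp_add]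
  have h4 : Real.exp (10 * Real.log 10) = 10 ^ 10 := by
    rw [show (10 : ℝ) * Real.log 10 = ((10 : ℕ) : ℝ) * Real.log 10 by norm_num, Real.exp_nat_mul,
      Real.exp_log (by norm_num)]
  rw [h4]
  have := Real.exp_one_lt_d9
  nlinarith

theorem num_log (α : ℕ) (hα : α < 41) :
    4 * ∑ j ∈ range 8, Real.log ((((j : ℝ) + 1) ^ 2 + ((α : ℝ) + 1) ^ 2) / 576) -
      3 * ∑ j ∈ range 48, Real.log ((((j : ℝ) + 8) ^ 2 + (α : ℝ) ^ 2) / 576) ≤ -111 := by
  have hA : ∀ j ∈ range 8, (((j : ℝ) + 1) ^ 2 + ((α : ℝ) + 1) ^ 2) ≠ 0 := fun j _ => by positivity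
  have hB : ∀ j ∈ range 48, (((j : ℝ) + 8) ^ 2 + (α : ℝ) ^ 2) ≠ 0 := fun j _ => by positivity
  have hpA : 0 < ∏ j ∈ Finset.range 8, ((j + 1) ^ 2 + (α + 1) ^ 2) :=
    Finset.prod_pos fun j _ => by positivity
  have hpB : 0 < ∏ j ∈ Finset.range 48, ((j + 8) ^ 2 + α ^ 2) :=
    Finset.prod_pos fun j _ => by positivity
  have h2 := log_step (∏ j ∈ Finset.range 8, ((j + 1) ^ 2 + (α + 1) ^ 2))
    (∏ j ∈ Finset.range 48, ((j + 8) ^ 2 + α ^ 2)) 576 27182818286 (10 ^ 111) hpA hpB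
    (by norm_num) (by norm_num) (by norm_num) 112 111 10 (num α hα)
  have h2a : Real.log ((10 ^ 111 : ℕ) : ℝ) = 111 * Real.log 10 := by
    rw [Nat.cast_pow, Real.log_pow]
    norm_num
  rw [h2a] at h2
  have eA : ((∏ j ∈ Finset.range 8, ((j + 1) ^ 2 + (α + 1) ^ 2) : ℕ) : ℝ) =
      ∏ j ∈ Finset.range 8, (((j : ℝ) + 1) ^ 2 + ((α : ℝ) + 1) ^ 2) := by
    rw [Nat.cast_prod]
    refine Finset.prod_congr rfl fun j _ => ?_
    push_cast
    rfl
  have eB : ((∏ j ∈ Finset.range 48, ((j + 8) ^ 2 + α ^ 2) : ℕ) : ℝ) =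
      ∏ j ∈ Finset.range 48, (((j : ℝ) + 8) ^ 2 + (α : ℝ) ^ 2) := by
    rw [Nat.cast_prod]
    refine Finset.prod_congr rfl fun j _ => ?_
    push_cast
    rfl
  rw [eA, eB, Real.log_prod hA, Real.log_prod hB] at h2
  have h3 := log_num
  have h5 : ∑ j ∈ range 8, Real.log ((((j : ℝ) + 1) ^ 2 + ((α : ℝ) + 1) ^ 2) / 576) =
      ∑ j ∈ range 8, Real.log (((j : ℝ) + 1) ^ 2 + ((α : ℝ) + 1) ^ 2) - 8 * Real.log 576 := by
    rw [Finset.sum_congr rfl fun j hj => Real.log_div (hA j hj) (by norm_num),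
      Finset.sum_sub_distrib, Finset.sum_const, card_range, nsmul_eq_mul]
    norm_num
  have h6 : ∑ j ∈ range 48, Real.log ((((j : ℝ) + 8) ^ 2 + (α : ℝ) ^ 2) / 576) =
      ∑ j ∈ range 48, Real.log (((j : ℝ) + 8) ^ 2 + (α : ℝ) ^ 2) - 48 * Real.log 576 := by
    rw [Finset.sum_congr rfl fun j hj => Real.log_div (hB j hj) (by norm_num),
      Finset.sum_sub_distrib, Finset.sum_const, card_range, nsmul_eq_mul]
    norm_num
  rw [h5, h6]
  simp only [Nat.cast_ofNat] at h2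
  linarith

/-- upper block sums -/
theorem block_up (G : ℕ → ℝ) (hG : ∀ a b, 1 ≤ a → a ≤ b → G a ≤ G b) (B n : ℕ) :
    ∑ i ∈ range (n * B), G (i + 1) ≤ B * ∑ j ∈ range n, G ((j + 1) * B) := by
  induction n with
  | zero => simp
  | succ n ih =>
    have e1 : (n + 1) * B = n * B + B := by ring
    rw [Finset.sum_range_succ, mul_add, e1, Finset.sum_range_add (fun i => G (i + 1)) (n * B) B]
    refine add_le_add ih ?_
    calc ∑ x ∈ range B, G (n * B + x + 1) ≤ ∑ x ∈ range B, G (n * B + B) := by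
          refine Finset.sum_le_sum fun x hx => ?_
          apply hG _ _ (by omega)
          have := Finset.mem_range.1 hx
          omega
      _ = B * G (n * B + B) := by rw [Finset.sum_const, card_range, nsmul_eq_mul]

/-- lower block sums -/
theorem block_lo (G : ℕ → ℝ) (hG : ∀ a b, 1 ≤ a → a ≤ b → G a ≤ G b) (B n c : ℕ) (hc : 1 ≤ c) :
    B * ∑ j ∈ range n, G (c + j * B) ≤ ∑ i ∈ range (n * B), G (c + i) := by
  induction n with
  | zero => simp
  | succ n ih =>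
    rw [Finset.sum_range_succ, mul_add, add_mul, one_mul,
      Finset.sum_range_add (fun i => G (c + i)) (n * B) B]
    refine add_le_add ih ?_
    calc B * G (c + n * B) = ∑ x ∈ range B, G (c + n * B) := by
          rw [Finset.sum_const, card_range, nsmul_eq_mul]
      _ ≤ ∑ x ∈ range B, G (c + (n * B + x)) := by
          refine Finset.sum_le_sum fun x hx => ?_
          exact hG _ _ (by omega) (by omega)

/-- the normalised logarithm -/
noncomputable def G (h : ℕ) (y : ℝ) (m : ℕ) : ℝ := Real.log (((m : ℝ) ^ 2 + y ^ 2) / (h : ℝ) ^ 2)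

theorem G_mono (h : ℕ) (hh : 0 < h) (y : ℝ) (a b : ℕ) (ha : 1 ≤ a) (hab : a ≤ b) :
    G h y a ≤ G h y b := by
  unfold G
  have h1 : (1 : ℝ) ≤ a := by exact_mod_cast ha
  have h2 : (a : ℝ) ≤ b := by exact_mod_cast hab
  have h3 : (0 : ℝ) < h := by exact_mod_cast hh
  apply Real.log_le_log (by positivity)
  gcongr

theorem case_a (h : ℕ) (hh : 3 ≤ h) (y : ℝ) (hy : 41 * (h : ℝ) / 24 ≤ y) :
    4 * ∑ i ∈ range (h / 3), G h y (i + 1) - 3 * ∑ i ∈ range (2 * h), G h y (h / 3 + i) ≤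
      -(46 / 10) * h := by
  have hK : 1 ≤ h / 3 := by omega
  have h1 : ∑ i ∈ range (h / 3), G h y (i + 1) ≤ ((h / 3 : ℕ) : ℝ) * G h y (h / 3) := by
    calc ∑ i ∈ range (h / 3), G h y (i + 1) ≤ ∑ i ∈ range (h / 3), G h y (h / 3) := by
          refine Finset.sum_le_sum fun i hi => ?_
          have := Finset.mem_range.1 hi
          exact G_mono h (by omega) y _ _ (by omega) (by omega)
      _ = _ := by rw [Finset.sum_const, card_range, nsmul_eq_mul]
  have h2 : ((2 * h : ℕ) : ℝ) * G h y (h / 3) ≤ ∑ i ∈ range (2 * h), G h y (h / 3 + i) := by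
    calc ((2 * h : ℕ) : ℝ) * G h y (h / 3) = ∑ i ∈ range (2 * h), G h y (h / 3) := by
          rw [Finset.sum_const, card_range, nsmul_eq_mul]
      _ ≤ _ := Finset.sum_le_sum fun i _ => G_mono h (by omega) y _ _ hK (by omega)
  have hh0 : (0 : ℝ) < h := by
    have : 0 < h := by omega
    exact_mod_cast this
  have hy0 : 0 < y := lt_of_lt_of_le (by positivity) hy
  have h3 : 1 ≤ G h y (h / 3) := by
    unfold G
    rw [Real.le_log_iff_exp_le (by positivity), le_div_iff₀ (by positivity)]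
    have h5 := Real.exp_one_lt_d9
    have h6 : (41 * (h : ℝ) / 24) ^ 2 ≤ y ^ 2 := pow_le_pow_left₀ (by positivity) hy 2
    have h7 : 0 ≤ (((h / 3 : ℕ) : ℝ)) ^ 2 := sq_nonneg _
    nlinarith [sq_pos_of_pos hh0]
  have h4 : ((h / 3 : ℕ) : ℝ) ≤ h / 3 := Nat.cast_div_le
  push_cast at h2
  nlinarith

theorem case_b (h : ℕ) (hh : 20000 ≤ h) (α : ℕ) (hα : α < 41) (y : ℝ)
    (hy1 : (α : ℝ) * h / 24 ≤ y) (hy2 : y ≤ ((α : ℝ) + 1) * h / 24) :
    4 * ∑ i ∈ range (h / 3), G h y (i + 1) - 3 * ∑ i ∈ range (2 * h), G h y (h / 3 + i) ≤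
      -(46 / 10) * h := by
  have hn := num_log α hα
  obtain ⟨B, hB⟩ : ∃ B, B = h / 24 := ⟨_, rfl⟩
  have hB1 : 1 ≤ B := by omega
  have hB2 : 24 * B ≤ h := by omega
  have hB3 : h ≤ 24 * B + 23 := by omega
  have hh0 : (0 : ℝ) < h := by
    have : 0 < h := by omega
    exact_mod_cast this
  have hB0 : (0 : ℝ) < B := by exact_mod_cast hB1
  have hB2' : 24 * (B : ℝ) ≤ h := by exact_mod_cast hB2
  have hB3' : (h : ℝ) ≤ 24 * B + 23 := by exact_mod_cast hB3
  have hhr : (20000 : ℝ) ≤ h := by exact_mod_cast hh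
  have hα0 : (0 : ℝ) ≤ α := Nat.cast_nonneg _
  have hα1 : (α : ℝ) ≤ 40 := by
    have : α ≤ 40 := by omega
    exact_mod_cast this
  have hy0 : 0 ≤ y := le_trans (by positivity) hy1
  have hmono := G_mono h (by omega) y
  -- upper
  have hu1 : ∑ i ∈ range (h / 3), G h y (i + 1) ≤
      B * ∑ j ∈ range 8, Real.log ((((j : ℝ) + 1) ^ 2 + ((α : ℝ) + 1) ^ 2) / 576) + 14 := by
    obtain ⟨r, hr⟩ : ∃ r, h / 3 = 8 * B + r := ⟨h / 3 - 8 * B, by omega⟩
    have hr7 : r ≤ 7 := by omega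
    rw [hr, Finset.sum_range_add (fun i => G h y (i + 1)) (8 * B) r]
    refine add_le_add ((block_up (G h y) hmono B 8).trans ?_) ?_
    · refine mul_le_mul_of_nonneg_left ?_ hB0.le
      refine Finset.sum_le_sum fun j _ => ?_
      unfold G
      have h1 : (0 : ℝ) < (((j + 1) * B : ℕ) : ℝ) := by
        have : 0 < (j + 1) * B := by positivity
        exact_mod_cast this
      apply Real.log_le_log (by positivity)
      push_cast
      rw [div_le_div_iff₀ (by positivity) (by norm_num)]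
      have e1 : (24 * (B : ℝ)) ^ 2 ≤ (h : ℝ) ^ 2 := pow_le_pow_left₀ (by positivity) hB2' 2
      have e2 : (24 * y) ^ 2 ≤ (((α : ℝ) + 1) * h) ^ 2 :=
        pow_le_pow_left₀ (by positivity) (by linarith) 2
      have e3 := mul_le_mul_of_nonneg_left e1 (sq_nonneg ((j : ℝ) + 1))
      nlinarith
    · have h2 : ∀ x ∈ range r, G h y (8 * B + x + 1) ≤ 2 := by
        intro x hx
        have hx' := Finset.mem_range.1 hx
        unfold G
        rw [Real.log_le_iff_le_exp (by positivity)]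
        have e1 : (((8 * B + x + 1 : ℕ) : ℝ)) ≤ h / 3 := by
          have e2 : 8 * B + x + 1 ≤ h / 3 := by omega
          have e3 : (((8 * B + x + 1 : ℕ) : ℝ)) ≤ ((h / 3 : ℕ) : ℝ) := by exact_mod_cast e2
          exact e3.trans Nat.cast_div_le
        have e4 : (((8 * B + x + 1 : ℕ) : ℝ)) ^ 2 ≤ ((h : ℝ) / 3) ^ 2 :=
          pow_le_pow_left₀ (Nat.cast_nonneg _) e1 2
        have e5 : y ≤ 41 * h / 24 := by nlinarith
        have e6 : y ^ 2 ≤ (41 * (h : ℝ) / 24) ^ 2 := pow_le_pow_left₀ hy0 e5 2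
        have e7 : (4 : ℝ) ≤ Real.exp 2 := by
          have e8 := Real.add_one_le_exp (1 : ℝ)
          have e9 : Real.exp 2 = Real.exp 1 * Real.exp 1 := by
            rw [← Real.exp_add]
            norm_num
          rw [e9]
          nlinarith
        refine le_trans ?_ e7
        rw [div_le_iff₀ (by positivity)]
        nlinarith [sq_nonneg (h : ℝ)]
      calc ∑ x ∈ range r, G h y (8 * B + x + 1) ≤ ∑ x ∈ range r, (2 : ℝ) :=
            Finset.sum_le_sum h2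
        _ = r * 2 := by rw [Finset.sum_const, card_range, nsmul_eq_mul]
        _ ≤ 14 := by
          have : (r : ℝ) ≤ 7 := by exact_mod_cast hr7
          linarith
  -- lower
  have hl1 : B * ∑ j ∈ range 48, Real.log ((((j : ℝ) + 8) ^ 2 + (α : ℝ) ^ 2) / 576) - 92 ≤
      ∑ i ∈ range (2 * h), G h y (h / 3 + i) := by
    have hx : -(46 / (24 * (B : ℝ))) ≤ Real.log ((24 * (B : ℝ) / h) ^ 2) := by
      rw [Real.log_pow]
      have h1 := Real.one_sub_inv_le_log_of_pos (show (0 : ℝ) < 24 * (B : ℝ) / h by positivity)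
      have h2 : -(23 / (24 * (B : ℝ))) ≤ 1 - (24 * (B : ℝ) / h)⁻¹ := by
        rw [inv_div, neg_le_sub_iff_le_add, div_le_iff₀ (by positivity), add_mul,
          div_mul_cancel₀ _ (by positivity)]
        linarith
      have h3 : (46 : ℝ) / (24 * (B : ℝ)) = 2 * (23 / (24 * (B : ℝ))) := by ring
      rw [h3]
      push_cast
      linarith
    have hs1 : ∑ i ∈ range (2 * h), G h y (8 * B + i) ≤
        ∑ i ∈ range (2 * h), G h y (h / 3 + i) :=
      Finset.sum_le_sum fun i _ => hmono _ _ (by omega) (by omega)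
    refine le_trans ?_ hs1
    obtain ⟨r, hr⟩ : ∃ r, 2 * h = 48 * B + r := ⟨2 * h - 48 * B, by omega⟩
    rw [hr, Finset.sum_range_add (fun i => G h y (8 * B + i)) (48 * B) r]
    have hs2 : 0 ≤ ∑ x ∈ range r, G h y (8 * B + (48 * B + x)) := by
      refine Finset.sum_nonneg fun x _ => ?_
      unfold G
      apply Real.log_nonneg
      rw [le_div_iff₀ (by positivity)]
      have h1 : h ≤ 8 * B + (48 * B + x) := by omega
      have h2 : (h : ℝ) ≤ ((8 * B + (48 * B + x) : ℕ) : ℝ) := by exact_mod_cast h1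
      have h3 : (h : ℝ) ^ 2 ≤ ((8 * B + (48 * B + x) : ℕ) : ℝ) ^ 2 :=
        pow_le_pow_left₀ hh0.le h2 2
      nlinarith [sq_nonneg y]
    have hs3 := block_lo (G h y) hmono B 48 (8 * B) (by omega)
    have hs4 : ∑ j ∈ range 48, (Real.log ((((j : ℝ) + 8) ^ 2 + (α : ℝ) ^ 2) / 576) -
        46 / (24 * (B : ℝ))) ≤ ∑ j ∈ range 48, G h y (8 * B + j * B) := by
      refine Finset.sum_le_sum fun j _ => ?_
      have h1 : Real.log ((((j : ℝ) + 8) ^ 2 + (α : ℝ) ^ 2) / 576) +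
          Real.log ((24 * (B : ℝ) / h) ^ 2) ≤ G h y (8 * B + j * B) := by
        rw [← Real.log_mul (by positivity) (by positivity)]
        unfold G
        apply Real.log_le_log (by positivity)
        rw [div_pow, div_mul_div_comm, div_le_div_iff₀ (by positivity) (by positivity)]
        have e1 : (α : ℝ) * B ≤ y := by
          refine le_trans ?_ hy1
          rw [le_div_iff₀ (by norm_num)]
          nlinarith
        have e2 : ((α : ℝ) * B) ^ 2 ≤ y ^ 2 := pow_le_pow_left₀ (by positivity) e1 2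
        have e3 := mul_le_mul_of_nonneg_right e2 (show (0 : ℝ) ≤ 576 * (h : ℝ) ^ 2 by positivity)
        push_cast
        nlinarith
      linarith
    rw [Finset.sum_sub_distrib, Finset.sum_const, card_range, nsmul_eq_mul] at hs4
    have hs5 := mul_le_mul_of_nonneg_left hs4 hB0.le
    have hs6 : (B : ℝ) * (∑ j ∈ range 48, Real.log ((((j : ℝ) + 8) ^ 2 + (α : ℝ) ^ 2) / 576) -
        ((48 : ℕ) : ℝ) * (46 / (24 * (B : ℝ)))) =
        B * ∑ j ∈ range 48, Real.log ((((j : ℝ) + 8) ^ 2 + (α : ℝ) ^ 2) / 576) - 92 := by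
      push_cast
      field_simp
      ring
    rw [hs6] at hs5
    linarith
  have hf := mul_le_mul_of_nonneg_left hn hB0.le
  have hf2 : (B : ℝ) * (4 * ∑ j ∈ range 8, Real.log ((((j : ℝ) + 1) ^ 2 + ((α : ℝ) + 1) ^ 2) / 576) -
      3 * ∑ j ∈ range 48, Real.log ((((j : ℝ) + 8) ^ 2 + (α : ℝ) ^ 2) / 576)) =
      4 * (B * ∑ j ∈ range 8, Real.log ((((j : ℝ) + 1) ^ 2 + ((α : ℝ) + 1) ^ 2) / 576)) -
      3 * (B * ∑ j ∈ range 48, Real.log ((((j : ℝ) + 8) ^ 2 + (α : ℝ) ^ 2) / 576)) := by ring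
  rw [hf2] at hf
  linarith

theorem main_nonneg (h : ℕ) (hh : 20000 ≤ h) (y : ℝ) (hy : 0 ≤ y) :
    4 * ∑ i ∈ range (h / 3), G h y (i + 1) - 3 * ∑ i ∈ range (2 * h), G h y (h / 3 + i) ≤
      -(46 / 10) * h := by
  rcases le_or_gt (41 * (h : ℝ) / 24) y with h1 | h1
  · exact case_a h (by omega) y h1
  · have hh0 : (0 : ℝ) < h := by
      have : 0 < h := by omega
      exact_mod_cast this
    have h2 : 0 ≤ 24 * y / h := by positivity
    have h3 := Nat.floor_le h2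
    have h4 := Nat.lt_floor_add_one (24 * y / h)
    rw [le_div_iff₀ hh0] at h3
    rw [div_lt_iff₀ hh0] at h4
    have h5 : ⌊24 * y / (h : ℝ)⌋₊ < 41 := by
      rw [Nat.floor_lt h2, div_lt_iff₀ hh0]
      push_cast
      linarith
    exact case_b h hh _ h5 y (by linarith) (by linarith)

theorem t_A3s : A3s := by
  unfold A3s
  filter_upwards [eventually_ge_atTop 20000] with h hh
  intro y
  have hmain := main_nonneg h hh |y| (abs_nonneg y)
  have hh0 : (0 : ℝ) < h := by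
    have : 0 < h := by omega
    exact_mod_cast this
  have hK : 1 ≤ h / 3 := by omega
  have hpos : ∀ m : ℕ, 1 ≤ m → (0 : ℝ) < (m : ℝ) ^ 2 + y ^ 2 := by
    intro m hm
    have : (0 : ℝ) < m := by exact_mod_cast hm
    positivity
  have hG : ∀ m : ℕ, 1 ≤ m → G h |y| m = Real.log ((m : ℝ) ^ 2 + y ^ 2) - 2 * Real.log h := by
    intro m hm
    unfold G
    rw [sq_abs, Real.log_div (hpos m hm).ne' (by positivity), Real.log_pow]
    norm_num
  have e1 : ∑ i ∈ range (h / 3), G h |y| (i + 1) =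
      ∑ m ∈ Icc 1 (h / 3), Real.log ((m : ℝ) ^ 2 + y ^ 2) - ((h / 3 : ℕ) : ℝ) * (2 * Real.log h) := by
    rw [Finset.sum_congr rfl fun i _ => hG (i + 1) (by omega), Finset.sum_sub_distrib,
      Finset.sum_const, card_range, nsmul_eq_mul]
    congr 1
    rw [Finset.range_eq_Ico, Finset.sum_Ico_add' (fun m : ℕ => Real.log ((m : ℝ) ^ 2 + y ^ 2)) 0 (h / 3) 1]
    rfl
  have e2 : ∑ i ∈ range (2 * h), G h |y| (h / 3 + i) =
      ∑ m ∈ Ico (h / 3) (h / 3 + 2 * h), Real.log ((m : ℝ) ^ 2 + y ^ 2) -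
        ((2 * h : ℕ) : ℝ) * (2 * Real.log h) := by
    rw [Finset.sum_congr rfl fun i _ => hG (h / 3 + i) (by omega), Finset.sum_sub_distrib,
      Finset.sum_const, card_range, nsmul_eq_mul]
    congr 1
    rw [Finset.sum_Ico_eq_sum_range, Nat.add_sub_cancel_left]
  rw [e1, e2] at hmain
  have hP1 : ∀ m ∈ Icc 1 (h / 3), ((m : ℝ) ^ 2 + y ^ 2) ≠ 0 := fun m hm =>
    (hpos m (Finset.mem_Icc.1 hm).1).ne'
  have hP2 : ∀ m ∈ Ico (h / 3) (h / 3 + 2 * h), ((m : ℝ) ^ 2 + y ^ 2) ≠ 0 := fun m hm =>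
    (hpos m (hK.trans (Finset.mem_Ico.1 hm).1)).ne'
  have hQ1 : 0 < ∏ m ∈ Icc 1 (h / 3), ((m : ℝ) ^ 2 + y ^ 2) :=
    Finset.prod_pos fun m hm => hpos m (Finset.mem_Icc.1 hm).1
  have hQ2 : 0 < ∏ m ∈ Ico (h / 3) (h / 3 + 2 * h), ((m : ℝ) ^ 2 + y ^ 2) :=
    Finset.prod_pos fun m hm => hpos m (hK.trans (Finset.mem_Ico.1 hm).1)
  show (∏ m ∈ Icc 1 (h / 3), ((m : ℝ) ^ 2 + y ^ 2)) ^ 4 ≤
    Real.exp (2 * sR h) * (∏ m ∈ Ico (h / 3) (h / 3 + 2 * h), ((m : ℝ) ^ 2 + y ^ 2)) ^ 3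
  rw [← Real.log_le_log_iff (by positivity) (by positivity),
    Real.log_mul (Real.exp_pos _).ne' (pow_ne_zero _ hQ2.ne'), Real.log_exp, Real.log_pow,
    Real.log_pow, Real.log_prod hP1, Real.log_prod hP2]
  have hs : sR h = (4 * ((h / 3 : ℕ) : ℝ) - 6 * h) * Real.log h - 23 / 10 * h := rfl
  rw [hs]
  push_cast at hmain ⊢
  nlinarith

end Pool.Agent.W108.GZ
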